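import Pool.Agent.Results.MP_ec4e4b_nt.AllTwistsX15
import Pool.Agent.Helper382_X15.Tower

/-!
# The Bloch–Kato rank formula for the base changes of fixed non-CM newforms to all the layers of infinite towers
# of totally real fields

`E_M : y² = x³ - 12987 M² x - 263466 M³` is the quadratic twist by `M` of `X_0(15)`, an elliptic curve without
complex multiplication, and `Cls` is the set of ALL the squarefree numbers `D ≡ 1` or `49` modulo `60`, with
no condition on the prime factors: a set of positive density `5 / (16 π²)`. Let `f_M` be the newform of weight 2 of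
`E_M` over `ℚ`, the twist of the newform of level 15 by the quadratic character of `ℚ(√M)`. For a field
`F = ℚ(√f_1, …, √f_r)`, totally real, let `g_{M, F}` be its base change to `F`: a Hilbert modular newform of parallel
weight 2 without complex multiplication, with rational Hecke eigenvalues `t_v = q_v + 1 - #E_M(k_v)`, and
`V_{g, 2} = V_2(E_M)`.

Let `F_0 = ℚ(√d_1, …, √d_n)` be a field of degree `2ⁿ` (for example `n = 0`, `F_0 = ℚ`), and `𝒩` a finite nonempty
set of numbers `M` such that the `E_M` are not isomorphic over `F_0` and all the pairs `(M, d)` are good: for all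
the `2ⁿ` numbers `M ∏_{i ∈ T} d_i`, which are up to squares numbers `D ≠ 1` of the class, `E_D(ℚ)` is finite and
`Ш(E_D/ℚ)[2] = 0`. For `n = 0` exactly the proportion `c = ∏_{i ≥ 1} (1 - 2^{-i}) = 0.2887...` of the `M` of the
class is good.

Theorem. There are infinite totally real extensions `F_∞ = F_0(√D_1, √D_2, …)` of `F_0`, with all the `D_i` in the
class, such that the formula of the problem holds for the base changes `g_{M, F}` of ALL the newforms `f_M`,
`M ∈ 𝒩`, to ALL the finite extensions `F = ℚ(√f_1, …, √f_r)` of `ℚ` in `F_∞` (the `f_j` being products of the `d_i`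
and `D_i`), and the prime `2`, with both sides equal to zero: `F` is totally real, the Bloch–Kato Selmer group
`H¹_f(F, V_2(E_M))` is zero, and `L(g_{M, F}, s)` is meromorphic on the complex plane, holomorphic at the centre
`s = 0` and of order zero there. The degrees of the fields `F` are all the powers of two.

The Euler factors at the finitely many places `v ∣ 30 M m`, `m = ∏ f_j`, are arbitrary Euler factors of the kind
that such a newform has. `H1f 2 W` (`Pool.Agent.Y667.BKP.H1f`, a starting file) is the group of the classes of the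
continuous cocycles of the absolute Galois group of `F` with values in `V_2 W = T_2 W ⊗ ℚ_2` whose restriction to
the completion at every place is in the image of the Kummer map; this is the condition of Bloch and Kato.

The towers and the Tate-Shafarevich groups are from `Pool/Agent/Helper382_X15` (helper382), the joint law is in
`Pool/Agent/H735X` (helper735), the single curve is the project X15 of helper757.
-/

set_option autoImplicit false

open NumberField IsDedekindDomain Filter Topology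

namespace Pool.Agent.Results.MP_6e2fc3_nt.BaseChangeTowersX15

open Pool.Agent.Results.MP_50bb2e_nt.MultiquadraticX15 (Cls UpTo InCls Ind RankZeroShaTwo GoodPair
  IsMultiquadratic qv av c num)
open Pool.Agent.Helper382_X15 (Curve)
open Pool.Agent.Results.MP_78d38b_nt.AllTwistsX15 (NonIso)
open Pool.Agent.Results.MP_ec4e4b_nt.AllTwistsX15 (IsLocal LocalFactors OrderOfVanishingZero)
open Pool.Agent.Y667.BKP (H1f)

/-- `S` is the set of the ramified places and `t_v` are the Hecke eigenvalues: the places `v` that do not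
divide `30 M m` are not in `S` and `t_v = q_v + 1 - #E_M(k_v)` there; at the places `v ∣ 30 M m` the number `t_v`
is any integer with `t_v² ≤ 4 q_v` if `v` is not in `S`, and one of `0, 1, -1` if `v` is in `S` -/
structure HeckeData (F : Type) [Field F] (M m : ℤ) (S : Set (HeightOneSpectrum (𝓞 F)))
    (t : HeightOneSpectrum (𝓞 F) → ℤ) : Prop where
  good : ∀ v, ((30 * M * m : ℤ) : 𝓞 F) ∉ v.asIdeal → v ∉ S ∧ t v = av F M v
  unramified : ∀ v, ((30 * M * m : ℤ) : 𝓞 F) ∈ v.asIdeal → v ∉ S → t v ^ 2 ≤ 4 * qv F v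
  ramified : ∀ v, ((30 * M * m : ℤ) : 𝓞 F) ∈ v.asIdeal → v ∈ S → t v = 0 ∨ t v = 1 ∨ t v = -1

open scoped Classical in
/-- the Euler factor at `v`, with the centre at `s = 0`: `(1 - t_v q_v^{-s-1} + q_v^{-2s-1})⁻¹` if `v` is not in
`S`, and `(1 - t_v q_v^{-s-1})⁻¹` if `v` is in `S` -/
noncomputable def factor (F : Type) [Field F] (S : Set (HeightOneSpectrum (𝓞 F)))
    (t : HeightOneSpectrum (𝓞 F) → ℤ) (s : ℂ) (v : HeightOneSpectrum (𝓞 F)) : ℂ :=
  if v ∈ S then (1 - (t v : ℂ) * (qv F v : ℂ) ^ (-s - 1))⁻¹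
  else (1 - (t v : ℂ) * (qv F v : ℂ) ^ (-s - 1) + (qv F v : ℂ) ^ (-2 * s - 1))⁻¹

/-- The rank formula for the newform `g_M` over the totally real field `F` and the prime `2`, with both sides
zero: `H¹_f(F, V_2(E_M)) = 0`, and `L(g_M, s)` is meromorphic, holomorphic at `s = 0` and of order zero
there. -/
def RankFormula (F : Type) [Field F] [NumberField F] (M m : ℤ) : Prop :=
  IsTotallyReal F ∧ (Curve F M).IsElliptic ∧ (∀ x : H1f 2 (Curve F M), x = 0) ∧
  ∀ (S : Set (HeightOneSpectrum (𝓞 F))) (t : HeightOneSpectrum (𝓞 F) → ℤ), HeckeData F M m S t →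
    ∃ L : ℂ → ℂ, (∀ z, MeromorphicAt L z) ∧
      (∀ s : ℂ, (1 : ℝ) / 2 < s.re → HasProd (factor F S t s) (L s)) ∧
      AnalyticAt ℂ L 0 ∧ analyticOrderAt L 0 = 0

/-! ### the field is totally real -/

theorem totallyReal {n : ℕ} {d : Fin n → ℤ} (hpos : ∀ i, 0 < d i)
    (K : Type) [Field K] [NumberField K] (hK : IsMultiquadratic d K) : IsTotallyReal K := by
  obtain ⟨x, hx, hgen⟩ := hK
  have key : ∀ φ : K →+* ℂ, ComplexEmbedding.conjugate φ = φ := by
    intro φ
    set T : Subfield K := RingHom.eqLocusField (ComplexEmbedding.conjugate φ) φ with hT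
    have hle : (⊤ : IntermediateField ℚ K) ≤
        T.toIntermediateField (fun q => by
          rw [hT, RingHom.mem_eqLocusField, eq_ratCast, map_ratCast, map_ratCast]) := by
      rw [← hgen, IntermediateField.adjoin_le_iff]
      rintro _ ⟨i, rfl⟩
      show x i ∈ T
      rw [hT, RingHom.mem_eqLocusField, ComplexEmbedding.conjugate_coe_eq, Complex.conj_eq_iff_im]
      have h1 : φ (x i) ^ 2 = ((d i : ℤ) : ℂ) := by
        rw [← map_pow, hx i, map_intCast]
      have h2 : (φ (x i) ^ 2).re = (d i : ℝ) := by rw [h1, Complex.intCast_re]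
      have h3 : (φ (x i) ^ 2).im = 0 := by rw [h1, Complex.intCast_im]
      rw [pow_two, Complex.mul_re] at h2
      rw [pow_two, Complex.mul_im] at h3
      have h4 : (0 : ℝ) < d i := by exact_mod_cast hpos i
      by_contra hne
      have h5 : (φ (x i)).re = 0 := by
        have : (φ (x i)).re * (φ (x i)).im = 0 := by linarith
        exact (mul_eq_zero.1 this).resolve_right hne
      rw [h5] at h2
      nlinarith [mul_self_nonneg (φ (x i)).im]
    ext y
    exact hle (IntermediateField.mem_top (x := y))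
  refine ⟨fun v => ?_⟩
  rw [← InfinitePlace.mk_embedding v, InfinitePlace.isReal_mk_iff, ComplexEmbedding.isReal_iff]
  exact key _

/-- the numbers `d_i` of a good pair are positive -/
theorem pos_of_good {n : ℕ} {d : Fin n → ℤ} {M : ℤ} (h : GoodPair M d) (i : Fin n) : 0 < d i := by
  have hp : ∀ T : Finset (Fin n), 0 < M * ∏ i ∈ T, d i := by
    intro T
    obtain ⟨D, -, h2, -, k, hk, he⟩ := h T
    rw [he]
    have : (0 : ℤ) < D := by exact_mod_cast Nat.pos_of_ne_zero h2.1.ne_zero
    positivity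
  have h0 := hp ∅
  have h1 := hp {i}
  rw [Finset.prod_empty, mul_one] at h0
  rw [Finset.prod_singleton] at h1
  exact (mul_pos_iff_of_pos_left h0).1 h1

/-! ### the formula -/

theorem lseries {F : Type} [Field F] [NumberField F] {M m : ℤ} (h : OrderOfVanishingZero F M m)
    (S : Set (HeightOneSpectrum (𝓞 F))) (t : HeightOneSpectrum (𝓞 F) → ℤ) (hS : HeckeData F M m S t) :
    ∃ L : ℂ → ℂ, (∀ z, MeromorphicAt L z) ∧
      (∀ s : ℂ, (1 : ℝ) / 2 < s.re → HasProd (factor F S t s) (L s)) ∧
      AnalyticAt ℂ L 0 ∧ analyticOrderAt L 0 = 0 := by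
  classical
  set P : HeightOneSpectrum (𝓞 F) → ℂ → ℂ := fun v =>
    if v ∈ S then (fun T => 1 - (t v : ℂ) * T)
    else (fun T => 1 - (t v : ℂ) * T + (qv F v : ℂ) * T ^ 2) with hPdef
  have hP : LocalFactors F M m P := by
    intro v
    constructor
    · intro hv
      obtain ⟨h1, h2⟩ := hS.good v hv
      simp only [hPdef, if_neg h1, h2]
    · intro hv
      by_cases h1 : v ∈ S
      · right
        exact ⟨t v, hS.ramified v hv h1, by simp only [hPdef, if_pos h1]⟩
      · left
        exact ⟨t v, hS.unramified v hv h1, by simp only [hPdef, if_neg h1]⟩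
  obtain ⟨L₀, hm, hp, ha, hne⟩ := h P hP
  have hsh : ∀ z : ℂ, AnalyticAt ℂ (fun s : ℂ => s + 1) z := fun z =>
    analyticAt_id.add analyticAt_const
  have ha' : AnalyticAt ℂ (fun s => L₀ (s + 1)) 0 := by
    have h1 : AnalyticAt ℂ L₀ ((fun s : ℂ => s + 1) 0) := by simpa using ha
    exact AnalyticAt.comp (f := fun s : ℂ => s + 1) h1 (hsh 0)
  refine ⟨fun s => L₀ (s + 1), fun z => ?_, fun s hs => ?_, ha', ?_⟩
  · exact MeromorphicAt.comp_analyticAt (g := fun s : ℂ => s + 1) (hm (z + 1)) (hsh z)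
  · have h1 := hp (s + 1) (by
      rw [Complex.add_re, Complex.one_re]
      linarith)
    refine h1.congr_fun ?_
    intro v
    have hq0 : (qv F v : ℂ) ≠ 0 := by
      have := Pool.Agent.Results.MP_ec4e4b_nt.AllTwistsX15.qv_two v
      have h5 : qv F v ≠ 0 := by omega
      exact_mod_cast h5
    have e1 : -(s + 1) = -s - 1 := by ring
    have e2 : (qv F v : ℂ) * ((qv F v : ℂ) ^ (-s - 1)) ^ 2 = (qv F v : ℂ) ^ (-2 * s - 1) := by
      have h7 : -2 * s - 1 = 1 + ((-s - 1) + (-s - 1)) := by ring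
      rw [h7, Complex.cpow_add _ _ hq0, Complex.cpow_one, Complex.cpow_add _ _ hq0, pow_two]
    by_cases hv : v ∈ S
    · simp only [factor, hPdef, if_pos hv, e1]
    · simp only [factor, hPdef, if_neg hv, e1, e2]
  · rw [ha'.analyticOrderAt_eq_zero]
    simpa using hne

/-- the rank formula for the good pairs -/
theorem rankFormula {n : ℕ} {d : Fin n → ℤ} {M : ℤ} (hd : Ind d) (h : GoodPair M d)
    (F : Type) [Field F] [NumberField F] (hF : IsMultiquadratic d F) :
    Module.finrank ℚ F = 2 ^ n ∧ RankFormula F M (∏ i, d i) := by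
  obtain ⟨h1, h5, h6, -, h7⟩ :=
    Pool.Agent.Results.MP_ec4e4b_nt.AllTwistsX15.formula hd h F hF
  exact ⟨h1, totallyReal (pos_of_good h) F hF, h5, h7, fun S t hS => lseries h6 S t hS⟩

/-- the field `ℚ(√d_1, …, √d_n)` has degree `2ⁿ`, all pairs `(M, d)`, `M ∈ 𝒩`, are good, and the curves
`E_M`, `M ∈ 𝒩`, are not isomorphic over the field -/
def Good {n : ℕ} (𝒩 : Finset ℤ) (d : Fin n → ℤ) : Prop :=
  Ind d ∧ (∀ M ∈ 𝒩, GoodPair M d) ∧ NonIso 𝒩 d

/-- **The Bloch–Kato rank formula in towers.** -/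
theorem result :
    (∀ (n : ℕ) (𝒩 : Finset ℤ) (d : Fin n → ℤ), 𝒩.Nonempty → Good 𝒩 d →
      ∃ e : ℕ → ℤ, (∀ i : Fin n, e i = d i) ∧ (∀ i, n ≤ i → ∃ D : ℕ, Cls D ∧ e i = D) ∧
        (∀ m, n ≤ m → Good 𝒩 (fun i : Fin m => e i)) ∧
        ∀ (r : ℕ) (T : Fin r → Finset ℕ), Ind (fun j => ∏ i ∈ T j, e i) →
          ∀ (F : Type) [Field F] [NumberField F], IsMultiquadratic (fun j => ∏ i ∈ T j, e i) F →
            Module.finrank ℚ F = 2 ^ r ∧ ∀ M ∈ 𝒩, RankFormula F M (∏ j, ∏ i ∈ T j, e i)) ∧
    Tendsto (fun X : ℕ => (num (fun D => GoodPair (D : ℤ) (Fin.elim0 : Fin 0 → ℤ)) X : ℝ) /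
      (num (fun _ => True) X : ℝ)) atTop (𝓝 c) ∧
    Tendsto (fun X : ℕ => (num (fun _ => True) X : ℝ) / X) atTop (𝓝 (5 / (16 * Real.pi ^ 2))) ∧
    0.2887 < c ∧ c < 0.2888 := by
  obtain ⟨-, -, -, g2, g3⟩ := Pool.Agent.Results.MP_50bb2e_nt.MultiquadraticX15.result
  refine ⟨fun n 𝒩 d h𝒩 h => ?_, ?_, Pool.Agent.Helper382_X15.num_dens, g2, g3⟩
  · obtain ⟨e, h1, h2, h3⟩ := Pool.Agent.Helper382_X15.exists_tower (𝒩 := 𝒩) (d := d) h h𝒩
      (by linarith)
    have hI : ∀ m, n ≤ m → Ind (fun i : Fin m => e i) := fun m hm => (h3 m hm).1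
    have he0 : ∀ i, e i ≠ 0 := Pool.Agent.Helper382_X15.ne_zero_of hI
    refine ⟨e, h1, h2, h3, fun r T hT F _ _ hF => ?_⟩
    have h4 : ∀ M ∈ 𝒩, GoodPair M (fun j => ∏ i ∈ T j, e i) := fun M hM =>
      Pool.Agent.Helper382_X15.goodPair_prod he0 (fun m hm => (h3 m hm).2.1 M hM) T
    obtain ⟨M₀, hM₀⟩ := h𝒩
    exact ⟨(rankFormula hT (h4 M₀ hM₀) F hF).1, fun M hM => (rankFormula hT (h4 M hM) F hF).2⟩
  · have h := Pool.Agent.Results.MP_50bb2e_nt.MultiquadraticX15.prop_good (n := 0) (M := 1)
      (d := (Fin.elim0 : Fin 0 → ℤ)) (fun T hT => by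
        obtain ⟨i, -⟩ := hT
        exact i.elim0) ⟨1, Pool.Agent.Results.MP_50bb2e_nt.MultiquadraticX15.cls_one, 1, one_ne_zero,
          by norm_num⟩ (fun i => i.elim0)
    rw [pow_zero, pow_one] at h
    refine h.congr fun X => ?_
    simp only [one_mul]

end Pool.Agent.Results.MP_6e2fc3_nt.BaseChangeTowersX15
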